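import Pool.Agent.H37.CNE.Stmts

/-!
# Denominators of conductors: `PSL_2(F)`, and the `p`-groups with an elementary abelian subgroup of index
`p`: statements of the rows of the board `cnp`

Row `XXX` is a theorem `xxx_thm (h1 : S_AAA) ... : S_XXX` (hypotheses: the rows it needs, of `cnp`, `cne`
or `cnd`) in `Pool/Agent/H<k>/CNP/XXX.lean`, importing this file, namespace `Pool.CND`.
-/

set_option autoImplicit false

namespace Pool.CND

open Finset Matrix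

/-! ## `PSL_2(F)` -/

/-- `PSL_2(F)` -/
abbrev PS (F : Type) [Field F] : Type := SL F ⧸ Subgroup.center (SL F)

/-- PSW: `p`-subgroups of `PSL_2(F)` (`SLW` for the preimage of `I` and the Sylow `p`-subgroup of the preimage
of `W`; for `p` odd the preimage of `I` has twice the order; for `p = 2` the centre is trivial) -/
def S_PSW : Prop := ∀ (p : ℕ) (F : Type) [Field F] [Finite F] (f q : ℕ), p.Prime → 1 ≤ f →
  q = p ^ f → Nat.card F = q → ∀ (W I : Subgroup (PS F)) (n : ℕ), W ≤ I → W ≠ ⊥ →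
  (∃ r : ℕ, Nat.card W = p ^ r) → (∀ g ∈ I, ∀ w ∈ W, g * w * g⁻¹ ∈ W) → ¬ p ∣ n →
  Nat.card I = n * Nat.card W → EA p W ∧ n ∣ (q - 1) / Nat.gcd 2 (q - 1)

/-- PSU: from `UPG`, `PSW` -/
def S_PSU : Prop := ∀ (p : ℕ) (k F : Type) [Field k] [Field F] (f q : ℕ), p.Prime → CharP k p →
  1 ≤ f → q = p ^ f → Nat.card F = q → ∀ c ∈ Cond k (PS F),
  ∃ z : ℤ, (((q - 1) / Nat.gcd 2 (q - 1) : ℕ) : ℚ) * c = z

/-- PSA: the fixed field `E` of `-1` (`p` odd), with its action of `PSL_2(F)`, is a cover.  `x ^ 2`, `x y`,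
`y ^ 2` lie in `E`; at a place of `E` with `s` finite they are finite, with residues `a ^ 2`, `a b`, `b ^ 2`, where
`a b ^ q - a ^ q b = 1` because `x y ((y ^ 2) ^ ((q - 1) / 2) - (x ^ 2) ^ ((q - 1) / 2)) = 1`; if `g` fixes the place then
`g (a, b) = ± (a, b)`, so `g = ± 1`. -/
def S_PSA : Prop := ∀ (p : ℕ) (k F L : Type) [Field k] [IsAlgClosed k] [Field F] [Field L]
  [Algebra F k] [Algebra k L] (f q m : ℕ) (s x y : L) (ρ : SL F →* (L ≃ₐ[k] L)) (P : Place k L),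
  p.Prime → CharP k p → p ≠ 2 → 1 ≤ f → q = p ^ f → Nat.card F = q → 1 ≤ m →
  Nat.Coprime m (p * (q - 1)) → Sl k F L q m s x y ρ P →
  ∃ (E : IntermediateField k L) (ρ' : PS F →* (E ≃ₐ[k] E)) (t : E),
    (∀ z : L, z ∈ E ↔ ∀ g ∈ Subgroup.center (SL F), ρ g z = z) ∧ (t : L) = s ∧
    (∀ (g : SL F) (z : E), ((ρ' (g : PS F) z : E) : L) = ρ g z) ∧ IsCover ρ' t

/-- PSB: its conductor (`FXP` for the centre, `SLF`; `g` fixes `Q` iff `g 1 0 = 0` (look at `x ^ 2`);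
`Q.ord (y ^ 2) = -m`, `g (y ^ 2) - y ^ 2 = 2 b x y + ...` of order `m (q - 1) / 2`: by `LO2`, `TMO` the break is
`m (q + 1) / 2`; if `(g 0 0) ^ 2 ≠ 1` then `g ∉ ram 1`) -/
def S_PSB : Prop := ∀ (p : ℕ) (k F L : Type) [Field k] [IsAlgClosed k] [Field F] [Field L]
  [Algebra F k] [Algebra k L] (f q m : ℕ) (s x y : L) (ρ : SL F →* (L ≃ₐ[k] L)) (P : Place k L),
  p.Prime → CharP k p → p ≠ 2 → 1 ≤ f → q = p ^ f → Nat.card F = q → 1 ≤ m →
  Nat.Coprime m (p * (q - 1)) → Sl k F L q m s x y ρ P →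
  ∀ (E : IntermediateField k L) (ρ' : PS F →* (E ≃ₐ[k] E)),
    (∀ z : L, z ∈ E ↔ ∀ g ∈ Subgroup.center (SL F), ρ g z = z) →
    (∀ (g : SL F) (z : E), ((ρ' (g : PS F) z : E) : L) = ρ g z) →
    ∃ Q : Place k E, (∀ z : E, z ≠ 0 → 2 * Q.ord z = P.ord (z : L)) ∧
      IsConductor Q ρ' ((m * (q + 1) : ℚ) / (q - 1 : ℕ))

/-- PSO: from `SLE`, `PSA`, `PSB` for `p` odd; for `p = 2` the centre is trivial, `SLO` (and `cond_mono` of the
file `Pool/Agent/H2/CND/CNG.lean`) -/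
def S_PSO : Prop := ∀ (p : ℕ) (k F : Type) [Field k] [IsAlgClosed k] [Field F] [Algebra F k]
  (f q m : ℕ), p.Prime → CharP k p → 1 ≤ f → q = p ^ f → Nat.card F = q → 1 ≤ m →
  Nat.Coprime m (p * (q - 1)) → ((m * (q + 1) : ℚ) / (q - 1 : ℕ)) ∈ Cond k (PS F)

/-- PSR: from `PSO`, `PSU`, `NGL`, as `SLR` -/
def S_PSR : Prop := ∀ (p : ℕ) (k F : Type) [Field k] [IsAlgClosed k] [Field F] (f q : ℕ),
  p.Prime → CharP k p → 1 ≤ f → q = p ^ f → Nat.card F = q →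
  NG k (PS F) = (q - 1) / Nat.gcd 2 (q - 1)

/-! ## Places: existence, weak approximation, total ramification -/

/-- EXI: a place at infinity.  `s = 1 / x`, `B` = integral closure of `k[s]` in `L` (a Dedekind domain), a prime
of `B` above `s`; the residue field is finite over `k`, so equal to `k` -/
def S_EXI : Prop := ∀ (k L : Type) [Field k] [IsAlgClosed k] [Field L] [Algebra k L] (x : L),
  Transcendental k x → Module.Finite (IntermediateField.adjoin k {x}) L →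
  Algebra.IsSeparable (IntermediateField.adjoin k {x}) L → ∃ P : Place k L, P.ord x < 0

/-- WAP: weak approximation (Mathlib: `AbsoluteValue.exists_one_lt_lt_one_pi_of_not_isEquiv`) -/
def S_WAP : Prop := ∀ (k L ι : Type) [Field k] [Field L] [Algebra k L] [Fintype ι] (P : Place k L)
  (Q : ι → Place k L), (∀ i, ∃ x : L, x ≠ 0 ∧ P.ord x ≠ (Q i).ord x) →
  ∃ a : L, a ≠ 0 ∧ P.ord a = 1 ∧ ∀ i, (Q i).ord a = 0

/-- RMX: `w = ∏_{n ∈ N} n a`, `a` from `WAP` for the places `z ↦ P.ord (n z)`, `n ∈ N`, `n ∉ J` -/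
def S_RMX : Prop := ∀ (k L G : Type) [Field k] [Field L] [Algebra k L] [Group G] [Finite G]
  (P : Place k L) (ρ : G →* (L ≃ₐ[k] L)) (N J : Subgroup G),
  (∀ g, g ∈ J ↔ g ∈ N ∧ Fixes P (ρ g)) →
  ∃ w : L, w ≠ 0 ∧ (∀ n ∈ N, ρ n w = w) ∧ P.ord w = (Nat.card J : ℤ)

/-- TRM: total ramification.  `J` = the elements of `A` fixing `P`; `RMX` gives `w ∈ k(x)` of order `|J|`, and
orders on `k(x)` are multiples of `ord x` (`SLX` for `1 / x`), so `ord x` divides `|J|`; if `J ≠ A` then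
`|J| ∣ ord y` (`TOT`), so `p |J| ∣ D ord x`, `p |J| ∣ ord x`: contradiction -/
def S_TRM : Prop := ∀ (p : ℕ) (k L G : Type) [Field k] [Field L] [Algebra k L] [Group G] [Finite G]
  (P : Place k L) (ρ : G →* (L ≃ₐ[k] L)) (A : Subgroup G) (x : L), p.Prime →
  Function.Injective ρ → (∃ n : ℕ, Nat.card A = p ^ n) → x ≠ 0 → P.ord x < 0 →
  (∀ a ∈ A, ρ a x = x) →
  (∀ z : L, (∀ a ∈ A, ρ a z = z) → z ∈ IntermediateField.adjoin k {x}) →
  (∀ J : Subgroup G, J ≤ A → J ≠ A → ∃ (y : L) (D : ℕ), ¬ p ∣ D ∧ y ≠ 0 ∧ (∀ j ∈ J, ρ j y = y) ∧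
    (p : ℤ) * P.ord y = D * P.ord x) →
  (∀ a ∈ A, Fixes P (ρ a)) ∧ P.ord x = -(Nat.card A : ℤ)

/-- HBX: the number `B` of `HBP` from an Artin-Schreier generator: `HER`, `FXP`, `RST`, `ART`, `UMW` (`1 ≤ Q.b γ`), and
`LO2` for `Q`, `x := y`, `Q.ord y = -D`: `0 = -D + Q.b γ` -/
def S_HBX : Prop := ∀ (p : ℕ) (k L G : Type) [Field k] [Field L] [Algebra k L] [Group G] [Fintype G]
  (P : Place k L) (ρ : G →* (L ≃ₐ[k] L)) (N I : Subgroup G) (g : G) (y : L) (c : k) (D : ℕ),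
  p.Prime → CharP k p → Function.Injective ρ → N ≤ I → (∀ g ∈ I, g ∈ ram P ρ 1) →
  (∀ g ∈ I, ∀ n ∈ N, g * n * g⁻¹ ∈ N) → g ∈ I → g ∉ N → (∀ n ∈ N, ρ n y = y) → y ≠ 0 → c ≠ 0 →
  ρ g y = y + algebraMap k L c → P.ord y = -((D * Nat.card N : ℕ) : ℤ) → ¬ p ∣ D → 1 ≤ D →
  sm (fun g => P.b (ρ g)) {x | g⁻¹ * x ∈ N} = Nat.card N * D

/-- CNV: converse of `CON` (`RAM`, `UMW`) -/
def S_CNV : Prop := ∀ (k L G : Type) [Field k] [Field L] [Algebra k L] [Group G] [Fintype G]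
  (P : Place k L) (ρ : G →* (L ≃ₐ[k] L)) (W I : Subgroup G) (l : ℤ), Function.Injective ρ →
  (W : Set G) = ram P ρ 1 → (I : Set G) = ram P ρ 0 → IsLst (fun g => P.b (ρ g)) W l →
  IsConductor P ρ (Nat.card W * U (fun g => P.b (ρ g)) W l / Nat.card I)

/-- ELH: hyperplane avoiding two elements -/
def S_ELH : Prop := ∀ (p : ℕ) (G : Type) [Group G] [Finite G] (A : Subgroup G), p.Prime → EA p A →
  ∀ g ∈ A, ∀ z ∈ A, g ≠ 1 → z ≠ 1 →
  ∃ N : Subgroup G, N ≤ A ∧ g ∉ N ∧ z ∉ N ∧ Nat.card A = p * Nat.card N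

/-- DCO: the conductor is `(D0 + p - 1) / p`.  `TRM` (a proper `J ≤ A` lies in a hyperplane); `RMX` for `N = ⊤`
(orders on `k(x ^ p - x)` are multiples of `p ord x`) shows that all of `G` fixes `P`; `TMO`: `ram 1 = G`.
`b` on `G`: last element `g` of `A`, `ELH` for `g`, `z`, `HBX`, last part of `CMB`: `U(A) = D0`; `HBX` with `y := x`
(`D = 1`) and `CMB` for `A ≤ G`: `U(G) = 1` (impossible: all `b = 1`, `U(A) = 1`) or `p U(G) = D0 + p - 1`;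
`CNV` -/
def S_DCO : Prop := ∀ (p : ℕ) (k L G : Type) [Field k] [Field L] [Algebra k L] [Group G] [Finite G]
  (P : Place k L) (ρ : G →* (L ≃ₐ[k] L)) (A : Subgroup G) (x : L) (z : G) (D0 : ℕ), p.Prime →
  CharP k p → Function.Injective ρ → EA p A → Nat.card G = p * Nat.card A → x ≠ 0 →
  P.ord x < 0 → (∀ a ∈ A, ρ a x = x) →
  (∀ g : G, g ∉ A → ∃ c : k, c ≠ 0 ∧ ρ g x = x + algebraMap k L c) →
  (∀ z : L, (∀ a ∈ A, ρ a z = z) → z ∈ IntermediateField.adjoin k {x}) →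
  (∀ z : L, (∀ g : G, ρ g z = z) → z ∈ IntermediateField.adjoin k {x ^ p - x}) →
  z ∈ A → z ≠ 1 → 2 ≤ D0 →
  (∀ J : Subgroup G, J ≤ A → Nat.card A = p * Nat.card J → ∃ (y : L) (D : ℕ), ¬ p ∣ D ∧ 1 ≤ D ∧
    y ≠ 0 ∧ (∀ j ∈ J, ρ j y = y) ∧
    (∀ a ∈ A, a ∉ J → ∃ c : k, c ≠ 0 ∧ ρ a y = y + algebraMap k L c) ∧
    (p : ℤ) * P.ord y = D * P.ord x ∧ (z ∉ J → D = D0)) →
  IsConductor P ρ (((D0 : ℚ) + (p - 1)) / p)

/-! ## The covers -/

/-- an element of `F_p` in `k` -/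
noncomputable def fp {p : ℕ} (k : Type) [Field k] [CharP k p] (a : ZMod p) : k :=
  ZMod.castHom (dvd_refl p) k a

/-- DGR: the group `G` with elementary abelian `A` of index `p`, not abelian (`A` is normal since `G` is a
`p`-group; `S` is the inverse of conjugation by `τ`) -/
def S_DGR : Prop := ∀ (p : ℕ) (G : Type) [Group G] [Finite G] (A : Subgroup G), p.Prime → EA p A →
  Nat.card G = p * Nat.card A → (∃ g h : G, g * h ≠ h * g) →
  ∃ (τ : G) (n : ℕ) (φ : A ≃* Multiplicative (Fin n → ZMod p))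
    (S : Matrix (Fin n) (Fin n) (ZMod p)) (ε : Fin n → ZMod p), τ ∉ A ∧
    (∀ a : A, ∃ a' : A, (a' : G) = τ * a * τ⁻¹ ∧
      S *ᵥ Multiplicative.toAdd (φ a') = Multiplicative.toAdd (φ a)) ∧
    (∃ e : A, (e : G) = τ ^ p ∧ Multiplicative.toAdd (φ e) = ε) ∧
    S ^ p = 1 ∧ S ≠ 1 ∧ S *ᵥ ε = ε

/-- POL: the polynomials.  `T = X ^ p - X`; `h`, `z` with `(S - 1) h = z ≠ 0`, `(S - 1) z = 0`;
`W = h T ^ m + z T ^ (m + 1) / (m + 1) + ∑_i e_i T ^ (p (i + 2) + 1)`;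
`F = ε G + ∑_{j < p} binom(X, j) (S - 1) ^ j W`, `C = -ε X ^ (p - 1)`, `G(X + 1) - G(X) = X ^ (p - 1) - X ^ (p (p - 1))`,
`deg G ≤ p (p - 1) + 1` (`G` exists: the right side has trace `0`).  For `ℓ`: modulo `r ^ p - r` the top exponent is
`p (m - 1) + 2` with coefficient `- (ℓ z) m / 2` if `ℓ z ≠ 0`; `p (m - 1) + 1` if `ℓ z = 0`, `ℓ h ≠ 0`; else look at the
largest `i` with `(ℓ (S - 1) ^ j)_i ≠ 0` for some `j`, and the largest such `j`. -/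
def S_POL : Prop := ∀ (p : ℕ) (k : Type) [Field k] [IsAlgClosed k] [CharP k p] (n : ℕ)
  (S : Matrix (Fin n) (Fin n) (ZMod p)) (ε : Fin n → ZMod p), p.Prime → p ≠ 2 → S ^ p = 1 →
  S ≠ 1 → S *ᵥ ε = ε → ∃ z : Fin n → ZMod p, z ≠ 0 ∧ ∃ m0 : ℕ, ∀ m : ℕ, m0 ≤ m → ¬ p ∣ m →
  ¬ p ∣ (m + 1) → ∃ F C : Fin n → Polynomial k,
    (∀ i, (F i).comp (Polynomial.X + 1) =
      (∑ j, Polynomial.C (fp k (S i j)) * F j) + ((C i) ^ p - C i)) ∧
    (∀ i, ∑ l ∈ range p, ∑ j, Polynomial.C (fp k ((S ^ (p - 1 - l)) i j)) *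
      (C j).comp (Polynomial.X + (l : Polynomial k)) = Polynomial.C (fp k (ε i))) ∧
    ∀ ℓ : Fin n → ZMod p, ℓ ≠ 0 → ∃ (D : ℕ) (r : Polynomial k), 1 ≤ D ∧ ¬ p ∣ D ∧
      ((∑ i, Polynomial.C (fp k (ℓ i)) * F i) - (r ^ p - r)).natDegree = D ∧
      (ℓ ⬝ᵥ z ≠ 0 → D = p * (m - 1) + 2)

/-- ASR: a polynomial whose reduced degree is positive and prime to `p` is not `r ^ p - r`, `r ∈ k(x)` -/
def S_ASR : Prop := ∀ (p : ℕ) (k : Type) [Field k] (f r : Polynomial k) (D : ℕ), p.Prime →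
  CharP k p → 1 ≤ D → ¬ p ∣ D → (f - (r ^ p - r)).natDegree = D →
  ∀ u : RatFunc k, u ^ p - u ≠ algebraMap (Polynomial k) (RatFunc k) f

/-- GAL: the field `L = k(x)(Y)`, `Y_i ^ p - Y_i = F_i(x)`, in an algebraic closure of `k(x)`; it is Galois over `k(x ^ p - x)`
(a conjugate of `Y` over `x ↦ x + 1` is `S Y + C(x) +` constants of `F_p`); `Gal(L / k(x))` embeds in `F_p ^ n` by
`σ Y - Y`, onto by the last hypothesis; `τ` acts by `x ↦ x + 1`, `Y ↦ S Y + C(x)`, `a ∈ A` by `Y ↦ Y + φ(a)` -/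
def S_GAL : Prop := ∀ (p : ℕ) (k G : Type) [Field k] [CharP k p] [Group G] [Finite G]
  (A : Subgroup G) (τ : G) (n : ℕ) (φ : A ≃* Multiplicative (Fin n → ZMod p))
  (S : Matrix (Fin n) (Fin n) (ZMod p)) (ε : Fin n → ZMod p) (F C : Fin n → Polynomial k),
  p.Prime → Nat.card G = p * Nat.card A → τ ∉ A →
  (∀ a : A, ∃ a' : A, (a' : G) = τ * a * τ⁻¹ ∧
    S *ᵥ Multiplicative.toAdd (φ a') = Multiplicative.toAdd (φ a)) →
  (∃ e : A, (e : G) = τ ^ p ∧ Multiplicative.toAdd (φ e) = ε) → S ^ p = 1 → S *ᵥ ε = ε →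
  (∀ i, (F i).comp (Polynomial.X + 1) =
    (∑ j, Polynomial.C (fp k (S i j)) * F j) + ((C i) ^ p - C i)) →
  (∀ i, ∑ l ∈ range p, ∑ j, Polynomial.C (fp k ((S ^ (p - 1 - l)) i j)) *
    (C j).comp (Polynomial.X + (l : Polynomial k)) = Polynomial.C (fp k (ε i))) →
  (∀ ℓ : Fin n → ZMod p, ℓ ≠ 0 → ∀ u : RatFunc k,
    u ^ p - u ≠ algebraMap (Polynomial k) (RatFunc k) (∑ i, Polynomial.C (fp k (ℓ i)) * F i)) →
  ∃ (L : Type) (_ : Field L) (_ : Algebra k L) (x : L) (Y : Fin n → L)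
    (ρ : G →* (L ≃ₐ[k] L)), Transcendental k x ∧ (∀ i, Y i ^ p - Y i = Polynomial.aeval x (F i)) ∧
    (∀ a : A, ρ a x = x ∧
      ∀ i, ρ a (Y i) = Y i + algebraMap k L (fp k (Multiplicative.toAdd (φ a) i))) ∧
    (∀ g : G, g ∉ A → ∃ c : k, c ≠ 0 ∧ c ^ p = c ∧ ρ g x = x + algebraMap k L c) ∧
    (∀ z : L, (∀ a ∈ A, ρ a z = z) → z ∈ IntermediateField.adjoin k {x}) ∧
    (∀ z : L, (∀ g : G, ρ g z = z) → z ∈ IntermediateField.adjoin k {x ^ p - x}) ∧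
    Module.Finite (IntermediateField.adjoin k {x}) L ∧
    Algebra.IsSeparable (IntermediateField.adjoin k {x}) L

/-- DUN: it is a cover (at a place with `x ^ p - x` finite `x` and the `Y i` are finite; if `g` fixes it then the
constants `ρ g x - x`, `ρ g (Y i) - Y i` vanish) -/
def S_DUN : Prop := ∀ (p : ℕ) (k L G : Type) [Field k] [CharP k p] [Field L] [Algebra k L] [Group G]
  [Finite G] (A : Subgroup G) (n : ℕ) (φ : A ≃* Multiplicative (Fin n → ZMod p))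
  (F : Fin n → Polynomial k) (x : L) (Y : Fin n → L) (ρ : G →* (L ≃ₐ[k] L)), p.Prime →
  Transcendental k x → (∀ i, Y i ^ p - Y i = Polynomial.aeval x (F i)) →
  (∀ a : A, ρ a x = x ∧
    ∀ i, ρ a (Y i) = Y i + algebraMap k L (fp k (Multiplicative.toAdd (φ a) i))) →
  (∀ g : G, g ∉ A → ∃ c : k, c ≠ 0 ∧ c ^ p = c ∧ ρ g x = x + algebraMap k L c) →
  (∀ z : L, (∀ g : G, ρ g z = z) → z ∈ IntermediateField.adjoin k {x ^ p - x}) →
  IsCover ρ (x ^ p - x)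

/-- DLO: from `DGR`, `POL`, `ASR`, `GAL`, `EXI`, `DUN`, `DCO` (hyperplane `J` = kernel of `ℓ`, `y = ∑ ℓ_i Y_i - r(x)`,
`y ^ p - y` = the reduced polynomial at `x`; `D0 = p (m - 1) + 2`, so `(D0 + p - 1) / p = m + 1 / p`) -/
def S_DLO : Prop := ∀ (p : ℕ) (k G : Type) [Field k] [IsAlgClosed k] [Group G] [Finite G]
  (A : Subgroup G), p.Prime → CharP k p → p ≠ 2 → EA p A → Nat.card G = p * Nat.card A →
  (∃ g h : G, g * h ≠ h * g) → ∃ m0 : ℕ, ∀ m : ℕ, m0 ≤ m → ¬ p ∣ m → ¬ p ∣ (m + 1) →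
  ((m : ℚ) + 1 / p) ∈ Cond k G

/-- DFI: from `DLO`, `UPA`, `NGL`, `PTA` -/
def S_DFI : Prop := ∀ (p : ℕ) (k G : Type) [Field k] [IsAlgClosed k] [Group G] [Finite G]
  (A : Subgroup G), p.Prime → CharP k p → EA p A → Nat.card G = p * Nat.card A →
  (p = 2 → NG k G = 1) ∧ (p ≠ 2 → (∃ g h : G, g * h ≠ h * g) → NG k G = p)

end Pool.CND
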